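import Pool.Agent.Helper98.ZA.Stmts
import Pool.Agent.Helper53.GY.MHQ

/-!
Row ZTY of the sheet ZA (MP_7a8f48_an): correlations of functions of finitely many coordinates
on the space `Y`.
-/

set_option linter.unusedSectionVars false

open MeasureTheory Filter Topology Finset
open scoped ComplexConjugate

namespace Pool.Agent.Helper53.ZA

open Pool.Agent.Helper98.TW (SA AM BF Sys)
open Pool.Agent.Helper98.TA (Tr)
open Pool.Agent.Helper98.ZA
open Pool.Agent.Helper53.GY (int_comp ae_back)

section gen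

variable {Y X : Type} [MeasurableSpace Y] [MeasurableSpace X] {ν : Measure Y} {π : Y → X}

/-- the powers of a factor map -/
theorem it_eqv {S : Y → Y} {R : X → X} (hS : MeasurePreserving S ν ν)
    (h : ∀ᵐ y ∂ν, π (S y) = R (π y)) (n : ℕ) :
    ∀ᵐ y ∂ν, π (S^[n] y) = R^[n] (π y) := by
  induction n with
  | zero => exact Eventually.of_forall fun y => rfl
  | succ n ih =>
    have h1 : ∀ᵐ y ∂ν, π (S (S^[n] y)) = R (π (S^[n] y)) :=
      (hS.iterate n).quasiMeasurePreserving.ae h
    filter_upwards [ih, h1] with y hy hy1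
    rw [Function.iterate_succ_apply', Function.iterate_succ_apply', hy1, hy]

/-- factors of ergodic transformations -/
theorem erg_fac {τ : Y → Y} {σ : X → X} (hτ : Ergodic τ ν) (hσ : Measurable σ)
    (hπ : Measurable π) (h : ∀ᵐ y ∂ν, π (τ y) = σ (π y)) : Ergodic σ (ν.map π) := by
  refine ⟨⟨hσ, ?_⟩, ⟨?_⟩⟩
  · rw [Measure.map_map hσ hπ]
    have h1 : ν.map (σ ∘ π) = ν.map (π ∘ τ) := by
      refine Measure.map_congr ?_
      filter_upwards [h] with z hz
      exact hz.symm
    rw [h1, ← Measure.map_map hπ hτ.toMeasurePreserving.measurable,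
      hτ.toMeasurePreserving.map_eq]
  · intro s hs hinv
    have h1 : π ⁻¹' s =ᵐ[ν] (∅ : Set Y) ∨ π ⁻¹' s =ᵐ[ν] (Set.univ : Set Y) := by
      refine hτ.quasiErgodic.ae_empty_or_univ₀ (hπ hs).nullMeasurableSet ?_
      filter_upwards [h] with z hz
      refine propext ?_
      change π (τ z) ∈ s ↔ π z ∈ s
      rw [hz]
      change π z ∈ σ ⁻¹' s ↔ _
      rw [hinv]
    rw [eventuallyConst_set']
    rcases h1 with h1 | h1
    · left
      have h2 : ν.map π s = 0 := by
        rw [Measure.map_apply hπ hs, measure_congr h1, measure_empty]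
      exact ae_eq_empty.2 h2
    · right
      have h2 : ν.map π sᶜ = 0 := by
        rw [Measure.map_apply hπ hs.compl, Set.preimage_compl,
          measure_congr (h1.compl), Set.compl_univ, measure_empty]
      exact ae_eq_univ.2 h2

/-- invariance of the first marginal -/
theorem fst_inv {τ σ : Y → Y} {κ : Measure (Y × Y)} (hτ : Measurable τ) (hσ : Measurable σ)
    (h : MeasurePreserving (Prod.map τ σ) κ κ) :
    MeasurePreserving τ (κ.map Prod.fst) (κ.map Prod.fst) := by
  refine ⟨hτ, ?_⟩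
  rw [Measure.map_map hτ measurable_fst]
  have : τ ∘ Prod.fst = Prod.fst ∘ Prod.map τ σ := rfl
  rw [this, ← Measure.map_map measurable_fst (hτ.prodMap hσ), h.map_eq]

theorem snd_inv {τ σ : Y → Y} {κ : Measure (Y × Y)} (hτ : Measurable τ) (hσ : Measurable σ)
    (h : MeasurePreserving (Prod.map τ σ) κ κ) :
    MeasurePreserving σ (κ.map Prod.snd) (κ.map Prod.snd) := by
  refine ⟨hσ, ?_⟩
  rw [Measure.map_map hσ measurable_snd]
  have : σ ∘ Prod.snd = Prod.snd ∘ Prod.map τ σ := rfl
  rw [this, ← Measure.map_map measurable_snd (hτ.prodMap hσ), h.map_eq]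

end gen

/-- ZTY: correlations of functions of finitely many coordinates on `Y` -/
theorem st_ZTY (hRL : ST_ZRL) (hFT : ST_ZFT) (hPP : ST_ZPP) (hAO : ST_ZAO) (hAC : ST_ZAC) :
    ST_ZTY := by
  intro Y _ _ _ _ ν _ S u hSc hUn hTu k f hf hf1
  have hSm : Measurable S := hSc.measurable
  have hprm : Measurable (pr u k) := measurable_pi_lambda _ fun i => hTu.meas i
  obtain ⟨R, R', hsys, heqv, A, hTr⟩ := hRL Y ν S u hUn.1 hTu k
  obtain ⟨hSe, hdom⟩ := hAC Y ν S hSm hUn
  have hμp : IsProbabilityMeasure (ν.map (pr u k)) :=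
    Measure.isProbabilityMeasure_map hprm.aemeasurable
  have hRe : Ergodic R (ν.map (pr u k)) := erg_fac hSe hsys.mp.measurable hprm heqv
  obtain ⟨m, B, hPe⟩ := hFT (Fin k → ℂ) (ν.map (pr u k)) R R' _ A k hsys hRe hTr
  obtain ⟨P, hPm, hP1, hPi, hP0⟩ :=
    hPP (Fin k → ℂ) (ν.map (pr u k)) R R' _ k m B hsys hPe f hf hf1
  have hit := it_eqv hUn.1 heqv
  refine ⟨m, P, hPe.pos, hPm, hP1, ?_, ?_⟩
  · have h1 := ae_of_ae_map hprm.aemeasurable hPi
    filter_upwards [h1, hit m] with y hy1 hy2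
    rw [hy2, hy1]
  intro ε hε
  have hG : BF (fun z => f z - P z) :=
    ⟨hf.sub hPm, 2, fun z => (norm_sub_le _ _).trans (by linarith [hf1 z, hP1 z])⟩
  obtain ⟨q₀, hq₀⟩ := hAO (Fin k → ℂ) (ν.map (pr u k)) R R' _ k m B hsys hRe hPe
    (fun z => f z - P z) hG hP0 ε hε
  refine ⟨q₀, fun q hq hqp p hpp hpq κ hκ hκe => ?_⟩
  have hR : Measurable R := hsys.mp.measurable
  have hmp := hκe.toMeasurePreserving
  have hpm : 1 ≤ p * m := Nat.one_le_iff_ne_zero.2
    (Nat.mul_ne_zero hpp.ne_zero (Nat.one_le_iff_ne_zero.1 hPe.pos))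
  have hqm : 1 ≤ q * m := Nat.one_le_iff_ne_zero.2
    (Nat.mul_ne_zero hqp.ne_zero (Nat.one_le_iff_ne_zero.1 hPe.pos))
  have hac1 : κ.map Prod.fst ≪ ν := by
    have hpr : IsProbabilityMeasure (κ.map Prod.fst) :=
      Measure.isProbabilityMeasure_map measurable_fst.aemeasurable
    refine Measure.AbsolutelyContinuous.mk fun s hs h0 => ?_
    have := hdom (p * m) (κ.map Prod.fst) hpm hpr
      (fst_inv (hSm.iterate _) (hSm.iterate _) hmp) s hs
    rw [h0, mul_zero] at this
    exact le_antisymm this bot_le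
  have hac2 : κ.map Prod.snd ≪ ν := by
    have hpr : IsProbabilityMeasure (κ.map Prod.snd) :=
      Measure.isProbabilityMeasure_map measurable_snd.aemeasurable
    refine Measure.AbsolutelyContinuous.mk fun s hs h0 => ?_
    have := hdom (q * m) (κ.map Prod.snd) hqm hpr
      (snd_inv (hSm.iterate _) (hSm.iterate _) hmp) s hs
    rw [h0, mul_zero] at this
    exact le_antisymm this bot_le
  have hPP2 : Measurable (Prod.map (pr u k) (pr u k)) := hprm.prodMap hprm
  have heq : ∀ᵐ z ∂κ, Prod.map (pr u k) (pr u k) (Prod.map S^[p * m] S^[q * m] z) =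
      Prod.map R^[p * m] R^[q * m] (Prod.map (pr u k) (pr u k) z) := by
    have h1 := ae_of_ae_map measurable_fst.aemeasurable (hac1.ae_le (hit (p * m)))
    have h2 := ae_of_ae_map measurable_snd.aemeasurable (hac2.ae_le (hit (q * m)))
    filter_upwards [h1, h2] with z hz1 hz2
    exact Prod.ext hz1 hz2
  have hκ1p : IsProbabilityMeasure (κ.map (Prod.map (pr u k) (pr u k))) :=
    Measure.isProbabilityMeasure_map hPP2.aemeasurable
  have hκ1e : Ergodic (Prod.map R^[p * m] R^[q * m]) (κ.map (Prod.map (pr u k) (pr u k))) :=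
    erg_fac hκe ((hR.iterate _).prodMap (hR.iterate _)) hPP2 heq
  have hf1' : (κ.map (Prod.map (pr u k) (pr u k))).map Prod.fst ≪ ν.map (pr u k) := by
    rw [Measure.map_map measurable_fst hPP2]
    have : Prod.fst ∘ Prod.map (pr u k) (pr u k) = pr u k ∘ Prod.fst := rfl
    rw [this, ← Measure.map_map hprm measurable_fst]
    exact hac1.map hprm
  have hf2' : (κ.map (Prod.map (pr u k) (pr u k))).map Prod.snd ≪ ν.map (pr u k) := by
    rw [Measure.map_map measurable_snd hPP2]
    have : Prod.snd ∘ Prod.map (pr u k) (pr u k) = pr u k ∘ Prod.snd := rfl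
    rw [this, ← Measure.map_map hprm measurable_snd]
    exact hac2.map hprm
  have hfin := hq₀ q hq hqp p hpp hpq _ hκ1p hκ1e hf1' hf2'
  have hmp1 : MeasurePreserving (Prod.map (pr u k) (pr u k)) κ
      (κ.map (Prod.map (pr u k) (pr u k))) := ⟨hPP2, rfl⟩
  have hGm : Measurable (fun z : (Fin k → ℂ) × (Fin k → ℂ) =>
      (f z.1 - P z.1) * conj (f z.2 - P z.2)) := by
    refine Measurable.mul (hG.1.comp measurable_fst) ?_
    exact Complex.continuous_conj.measurable.comp (hG.1.comp measurable_snd)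
  rw [← int_comp hmp1 hGm.aestronglyMeasurable] at hfin
  exact hfin

end Pool.Agent.Helper53.ZA
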